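import Pool.Agent.Helper35_FKP.Gen

/-!
# Positivity of Schubert polynomials at the Dunkl elements: closure rules

`Q1 N w` is the conclusion of the problem for one permutation `w` of `N` letters: the value of the
Schubert polynomial of `w` at the Dunkl elements of the Fomin–Kirillov algebra `E N` is a sum of
words. `Gen B` is the class of permutations generated by a class `B`, by the permutations avoiding
1324, 2143 and 3142 and by the rules of the definition (products with basic positive polynomials
and with each other, skew sums, glueing, conjugation with the longest element).
-/

set_option autoImplicit false

open Equiv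

namespace Pool.Agent.Results.MP_18e858_co.ClosureRules

open Pool.Agent.FKP

/-- If the members of `B` satisfy Q1, then all members of `Gen B` satisfy Q1; in particular
(`B` empty) all members of `Gen` of the empty class satisfy Q1. -/
theorem result (B : ∀ N : ℕ, Perm (Fin N) → Prop)
    (hB : ∀ (N : ℕ) (w : Perm (Fin N)), B N w → Q1 N w)
    (N : ℕ) (w : Perm (Fin N)) (hw : Gen B N w) : Q1 N w :=
  H35.gen_Q1 hB N w hw

end Pool.Agent.Results.MP_18e858_co.ClosureRules
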